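import Pool.Agent.helper84.LP.SpecG
import Pool.Agent.helper62.EN.SpecX
import Pool.Agent.helper88.LL.BIR

/-!
# MP_07c750, project LP, row MEV (mean ergodic theorem along the geodesic flow)
-/

open scoped MatrixGroups ContDiff Topology UpperHalfPlane ComplexConjugate
open UpperHalfPlane MeasureTheory Filter Set

set_option autoImplicit false

namespace Pool.Agent.LP

open Pool.Agent.EN (XG MG mkX mkM fl pr)

/-- iterates of the time one map -/
theorem MEV_iter {X : Type} [TopologicalSpace X] (F : ℝ → X → X) (hF : EN.FlowOn F) (i : ℕ) (x : X) :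
    (F 1)^[i] x = F i x := by
  induction i with
  | zero => simpa using (hF.zero x).symm
  | succ i ih =>
    rw [Function.iterate_succ_apply', ih, ← hF.add]
    congr 1
    push_cast
    ring

/-- the integral up to `n` is a Birkhoff sum -/
theorem MEV_sum {X : Type} [TopologicalSpace X] (F : ℝ → X → X) (hF : EN.FlowOn F) (W : X → ℝ) (hW : Continuous W) (n : ℕ) (x : X) :
    ∫ t in (0 : ℝ)..n, W (F t x) =
      ∑ i ∈ Finset.range n, ∫ t in (0 : ℝ)..1, W (F t ((F 1)^[i] x)) := by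
  have hc : ∀ y : X, Continuous (fun t : ℝ => W (F t y)) := fun y =>
    hW.comp (hF.cont.comp (Continuous.prodMk_left y))
  have h1 := intervalIntegral.sum_integral_adjacent_intervals (μ := volume) (f := fun t : ℝ => W (F t x))
    (a := fun k : ℕ => (k : ℝ)) (n := n) (fun k _ => (hc x).intervalIntegrable _ _)
  have h2 : ∫ t in (0 : ℝ)..n, W (F t x) = ∫ t in ((0 : ℕ) : ℝ)..(n : ℝ), W (F t x) := by
    rw [Nat.cast_zero]
  rw [h2, ← h1]
  refine Finset.sum_congr rfl fun i _ => ?_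
  rw [MEV_iter F hF i x]
  have h3 : ∀ t : ℝ, W (F t (F i x)) = (fun s : ℝ => W (F s x)) (t + i) := fun t => by
    show W (F t (F i x)) = W (F (t + i) x)
    rw [hF.add]
  simp only [h3]
  rw [intervalIntegral.integral_comp_add_right (fun s : ℝ => W (F s x)) (i : ℝ)]
  congr 1
  · rw [zero_add]
  · push_cast
    ring

/-- the mean ergodic theorem for a continuous flow on a compact space -/
theorem MEV_abs (X : Type) [TopologicalSpace X] [CompactSpace X] [SecondCountableTopology X] [MeasurableSpace X] [BorelSpace X]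
    (F : ℝ → X → X) (hF : EN.FlowOn F) (μ : Measure X) (hμ : IsProbabilityMeasure μ) (hinv : ∀ t, μ.map (F t) = μ)
    (W : X → ℝ) (hW : Continuous W) (hW1 : ∀ x, 0 ≤ W x ∧ W x ≤ 1) :
    ∃ f : X → ℝ, Measurable f ∧ (∀ x, 0 ≤ f x ∧ f x ≤ 1) ∧ (∀ n : ℕ, ∀ᵐ x ∂μ, f (F n x) = f x) ∧ ∫ x, f x ∂μ = ∫ x, W x ∂μ ∧
      ∀ ε δ : ℝ, 0 < ε → 0 < δ → ∃ n0 : ℕ, ∀ n : ℕ, n0 ≤ n → μ.real {x | ε * n ≤ |(∫ t in (0 : ℝ)..n, W (F t x)) - f x * n|} ≤ δ := by
  have hcf : Continuous (fun q : X × ℝ => W (F q.2 q.1)) :=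
    hW.comp (hF.cont.comp (continuous_snd.prodMk continuous_fst))
  have hci : ∀ y : X, Continuous (fun t : ℝ => W (F t y)) := fun y =>
    hcf.comp (Continuous.prodMk_right y)
  have hg : Continuous (fun x : X => ∫ t in (0 : ℝ)..1, W (F t x)) :=
    intervalIntegral.continuous_parametric_intervalIntegral_of_continuous' (f := fun (x : X) (t : ℝ) => W (F t x)) hcf 0 1
  have hg1 : ∀ x : X, 0 ≤ (fun x : X => ∫ t in (0 : ℝ)..1, W (F t x)) x ∧ (fun x : X => ∫ t in (0 : ℝ)..1, W (F t x)) x ≤ 1 := by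
    intro x
    refine ⟨intervalIntegral.integral_nonneg zero_le_one fun t _ => (hW1 _).1, ?_⟩
    have h := intervalIntegral.integral_mono_on (μ := volume) (a := 0) (b := 1) (f := fun t : ℝ => W (F t x)) (g := fun _ => (1 : ℝ))
      zero_le_one ((hci x).intervalIntegrable _ _) (continuous_const.intervalIntegrable _ _) fun t _ => (hW1 _).2
    simpa using h
  have hT : MeasurePreserving (F 1) μ μ :=
    ⟨(hF.cont.comp (Continuous.prodMk_right 1)).measurable, hinv 1⟩
  obtain ⟨f, hfm, hfT, hf1, hfi, hft⟩ := LL.BIR_proof X μ (F 1) _ 1 hμ hT hg.measurable hg1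
  have hn : ∀ (n : ℕ) (x : X), f (F n x) = f x := by
    intro n x
    rw [← MEV_iter F hF n x]
    induction n with
    | zero => rfl
    | succ n ih => rw [Function.iterate_succ_apply', hfT, ih]
  refine ⟨f, hfm, hf1, fun n => ae_of_all _ fun x => hn n x, ?_, ?_⟩
  · rw [hfi]
    have h1 : ∀ x, (∫ t in (0 : ℝ)..1, W (F t x)) = ∫ t in Ioc (0 : ℝ) 1, W (F t x) := fun x =>
      intervalIntegral.integral_of_le zero_le_one
    have hint : Integrable (Function.uncurry fun (x : X) (t : ℝ) => W (F t x)) (μ.prod (volume.restrict (Ioc (0 : ℝ) 1))) := by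
      refine Integrable.of_bound hcf.measurable.aestronglyMeasurable 1 (ae_of_all _ fun q => ?_)
      show ‖W (F q.2 q.1)‖ ≤ 1
      rw [Real.norm_eq_abs, abs_of_nonneg (hW1 _).1]
      exact (hW1 _).2
    calc ∫ x, (∫ t in (0 : ℝ)..1, W (F t x)) ∂μ = ∫ x, (∫ t in Ioc (0 : ℝ) 1, W (F t x)) ∂μ := by simp only [h1]
      _ = ∫ t in Ioc (0 : ℝ) 1, (∫ x, W (F t x) ∂μ) := integral_integral_swap hint
      _ = ∫ t in Ioc (0 : ℝ) 1, (∫ x, W x ∂μ) := by
        refine setIntegral_congr_fun measurableSet_Ioc fun t _ => ?_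
        have hm : Measurable (F t) := (hF.cont.comp (Continuous.prodMk_right t)).measurable
        show ∫ x, W (F t x) ∂μ = ∫ x, W x ∂μ
        have h2 := integral_map (μ := μ) hm.aemeasurable (f := W) hW.measurable.aestronglyMeasurable
        rw [hinv t] at h2
        exact h2.symm
      _ = ∫ x, W x ∂μ := by
        rw [setIntegral_const]
        simp
  · intro ε δ hε hδ
    have hms : ∀ n : ℕ, AEStronglyMeasurable (fun x => (∑ i ∈ Finset.range n, (fun x : X => ∫ t in (0 : ℝ)..1, W (F t x)) ((F 1)^[i] x)) / (n : ℝ)) μ := by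
      intro n
      refine Measurable.aestronglyMeasurable ?_
      refine Measurable.div_const ?_ _
      exact Finset.measurable_sum _ fun i _ => hg.measurable.comp (hT.measurable.iterate i)
    have h1 := tendstoInMeasure_of_tendsto_ae hms hft
    have h2 := (tendstoInMeasure_iff_dist.1 h1) ε hε
    have h3 := h2.eventually (Iio_mem_nhds (ENNReal.ofReal_pos.2 hδ))
    obtain ⟨n0, hn0⟩ := (h3.and (eventually_ge_atTop 1)).exists_forall_of_atTop
    refine ⟨n0, fun n hnn => ?_⟩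
    obtain ⟨h4, h5⟩ := hn0 n hnn
    have hnpos : (0 : ℝ) < n := by exact_mod_cast h5
    have hsub : {x | ε * n ≤ |(∫ t in (0 : ℝ)..n, W (F t x)) - f x * n|} ⊆
        {x | ε ≤ dist ((∑ i ∈ Finset.range n, (fun x : X => ∫ t in (0 : ℝ)..1, W (F t x)) ((F 1)^[i] x)) / (n : ℝ)) (f x)} := by
      intro x hx
      have hx' : ε * n ≤ |(∫ t in (0 : ℝ)..n, W (F t x)) - f x * n| := hx
      rw [MEV_sum F hF W hW n x] at hx'
      show ε ≤ dist ((∑ i ∈ Finset.range n, ∫ t in (0 : ℝ)..1, W (F t ((F 1)^[i] x))) / (n : ℝ)) (f x)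
      rw [Real.dist_eq]
      have h6 : (∑ i ∈ Finset.range n, ∫ t in (0 : ℝ)..1, W (F t ((F 1)^[i] x))) / (n : ℝ) - f x =
          ((∑ i ∈ Finset.range n, ∫ t in (0 : ℝ)..1, W (F t ((F 1)^[i] x))) - f x * n) / n := by
        field_simp
      rw [h6, abs_div, abs_of_pos hnpos, le_div_iff₀ hnpos]
      exact hx'
    refine le_trans (measureReal_mono hsub (measure_ne_top _ _)) ?_
    rw [Measure.real]
    exact ENNReal.toReal_le_of_le_ofReal hδ.le h4.le

theorem MEV_proof (hXFL : EN.XFL_stmt) (hXTX : EN.XTX_stmt) : MEV_stmt := by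
  intro Γ μ V hΓ hμ hinv hV hV1
  obtain ⟨hF, hpr, -⟩ := hXFL Γ
  obtain ⟨hX1, hX2, hX3⟩ := hXTX Γ hΓ
  exact MEV_abs (XG Γ) (fl Γ) hF μ hμ hinv (fun x => V (pr Γ x)) (hV.comp hpr) (fun x => hV1 _)

end Pool.Agent.LP
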